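import Pool.Agent.Helper69_SER.Stmts

/-!
# ELIMN and REDND (MP_bd34ba_al, squad SER)
-/

set_option autoImplicit false

namespace SER

namespace H18

section

variable {R : Type} [Ring R] {N : Type} [AddCommGroup N] [Module R N]

/-- `HI` is an ideal -/
theorem hi_comp {X Y X' Y' : Type} [AddCommGroup X] [Module R X] [AddCommGroup Y] [Module R Y]
    [AddCommGroup X'] [Module R X'] [AddCommGroup Y'] [Module R Y'] {f : X →ₗ[R] Y}
    (hf : f ∈ HI R N X Y) (g : Y →ₗ[R] Y') (h : X' →ₗ[R] X) : g ∘ₗ f ∘ₗ h ∈ HI R N X' Y' := by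
  refine AddSubgroup.closure_induction (p := fun f _ => g ∘ₗ f ∘ₗ h ∈ HI R N X' Y')
    ?_ ?_ ?_ ?_ hf
  · rintro _ ⟨α, β, rfl⟩
    exact AddSubgroup.subset_closure ⟨α ∘ₗ h, g ∘ₗ β, rfl⟩
  · simp only [LinearMap.zero_comp, LinearMap.comp_zero]
    exact AddSubgroup.zero_mem _
  · intro a b _ _ ha hb
    rw [LinearMap.add_comp, LinearMap.comp_add]
    exact AddSubgroup.add_mem _ ha hb
  · intro a _ ha
    rw [LinearMap.neg_comp, LinearMap.comp_neg]
    exact AddSubgroup.neg_mem _ ha

theorem big_sum {big : ∀ Y : ModuleCat.{0} R, Y → Prop} (hB : Big R big) (Y : ModuleCat.{0} R)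
    {κ : Type} (s : Finset κ) (f : κ → Y) (h : big Y (∑ k ∈ s, f k)) : ∃ k ∈ s, big Y (f k) := by
  classical
  induction s using Finset.induction_on with
  | empty =>
    rw [Finset.sum_empty] at h
    exact absurd h (hB.zero Y)
  | insert k s hk ih =>
    rw [Finset.sum_insert hk] at h
    rcases hB.add Y _ _ h with h | h
    · exact ⟨k, Finset.mem_insert_self _ _, h⟩
    · obtain ⟨l, hl, h⟩ := ih h
      exact ⟨l, Finset.mem_insert_of_mem hl, h⟩

end

theorem elimn (hE : ElimStmt) : ElimNStmt := by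
  classical
  intro R _ N _ _ hN ι U hU L big hbig hP3 X β n hb
  set F : Finset ι := (L.fin n).toFinset with hF
  have hmem : ∀ i, L.b i n ≠ 0 → i ∈ F := fun i hi => by
    rw [hF, Set.Finite.mem_toFinset]
    exact hi
  have hsum := L.sum n F hmem
  -- one of the components is big
  have h1 : ∃ i ∈ F, big (U i) (L.b i n) := by
    have h2 : β n = ∑ i ∈ F, β (L.a i (L.b i n)) := by
      conv_lhs => rw [← hsum]
      rw [map_sum]
    rw [h2] at hb
    obtain ⟨i, hi, h3⟩ := big_sum hbig X F _ hb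
    exact ⟨i, hi, hbig.map (U i) X (β ∘ₗ L.a i) (L.b i n) h3⟩
  obtain ⟨i0, hi0, hbi⟩ := h1
  let J : Type := {i // i ∈ F}
  let P : Type := ∀ i : J, U i.1
  let d : Dec R P J (fun i => U i.1) :=
    { inc := fun k => LinearMap.single R (fun i : J => U i.1) k
      pr := fun k => LinearMap.proj k
      pr_inc := fun k x => Pi.single_eq_same (M := fun i : J => U i.1) k x
      pr_inc_ne := fun k l hkl x => Pi.single_eq_of_ne (M := fun i : J => U i.1) hkl x
      sum := fun x => Finset.univ_sum_single x }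
  let α : P →ₗ[R] N := ∑ i : J, L.a i.1 ∘ₗ LinearMap.proj i
  let γ : N →ₗ[R] P := LinearMap.pi fun i => L.b i.1
  let x : P := fun i => L.b i.1 n
  have hα : α x = n := by
    have h4 : α x = ∑ i : J, L.a i.1 (L.b i.1 n) := by
      simp only [α, LinearMap.sum_apply, LinearMap.comp_apply]
      rfl
    rw [h4, Finset.sum_coe_sort F (fun i => L.a i (L.b i n))]
    exact hsum
  have hEx : (γ ∘ₗ α) x = x := by
    rw [LinearMap.comp_apply, hα]
    rfl
  have hHI : (γ ∘ₗ α) ∈ HI R N P P := AddSubgroup.subset_closure ⟨α, γ, rfl⟩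
  exact hE R N hN (Fintype.card J) big hbig P J (fun i => U i.1) rfl (fun k => hU k.1)
    (fun k hk c hc y hy => hP3 k.1 hk c hc y hy) d (γ ∘ₗ α) hHI x hEx ⟨i0, hi0⟩ hbi

theorem rednd : RedNDStmt := by
  classical
  intro R _ N _ _ n hEl big hbig P _ _ J _ X hJ hX hP3 d E hE x hEx j V _ _ z hzx hbij
  let zj : X j ≃ₗ[R] V := LinearEquiv.ofBijective (z ∘ₗ d.inc j) hbij
  have hzj : ∀ v, z (d.inc j (zj.symm v)) = v := fun v => zj.apply_symm_apply v
  have hzj' : ∀ v, zj.symm (z (d.inc j v)) = v := fun v => zj.symm_apply_apply v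
  let K : Submodule R P := LinearMap.ker z
  let π : P →ₗ[R] K := LinearMap.codRestrict K
    (LinearMap.id - (d.inc j ∘ₗ (zj.symm : V →ₗ[R] X j)) ∘ₗ z) (fun p => by
      rw [LinearMap.mem_ker]
      simp only [LinearMap.sub_apply, LinearMap.id_apply, LinearMap.comp_apply, map_sub,
        LinearEquiv.coe_coe]
      rw [hzj, sub_self])
  have hπ : ∀ p, ((π p : K) : P) = p - d.inc j (zj.symm (z p)) := fun p => rfl
  have hπK : ∀ p : K, π (p : P) = p := by
    intro p
    apply Subtype.ext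
    rw [hπ]
    have : z (p : P) = 0 := p.2
    rw [this, map_zero, map_zero, sub_zero]
  have hπj : ∀ v, π (d.inc j v) = 0 := by
    intro v
    apply Subtype.ext
    rw [hπ, hzj', sub_self]
    rfl
  -- the sum over the other indices
  have hsplit : ∀ {Y : Type} [AddCommGroup Y] (f : J → Y),
      ∑ k, f k = f j + ∑ k : {k // k ≠ j}, f k.1 := by
    intro Y _ f
    rw [← Finset.add_sum_erase Finset.univ f (Finset.mem_univ j)]
    congr 1
    refine (Finset.sum_subtype (Finset.univ.erase j) (fun k => ?_) f)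
    simp
  let d' : Dec R K {k // k ≠ j} (fun k => X k.1) :=
    { inc := fun k => π ∘ₗ d.inc k.1
      pr := fun k => d.pr k.1 ∘ₗ K.subtype
      pr_inc := fun k v => by
        rw [LinearMap.comp_apply, LinearMap.comp_apply, Submodule.subtype_apply, hπ, map_sub,
          d.pr_inc, d.pr_inc_ne k.1 j k.2, sub_zero]
      pr_inc_ne := fun k l hkl v => by
        rw [LinearMap.comp_apply, LinearMap.comp_apply, Submodule.subtype_apply, hπ, map_sub,
          d.pr_inc_ne k.1 l.1 (fun h => hkl (Subtype.ext h)), d.pr_inc_ne k.1 j k.2, sub_zero]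
      sum := fun y => by
        have h1 := d.sum (y : P)
        rw [hsplit] at h1
        have h2 := congrArg π h1
        rw [map_add, hπj, zero_add, map_sum, hπK] at h2
        exact h2 }
  have hx : x ∈ K := hzx
  have hcard : Fintype.card {k // k ≠ j} = n := by
    rw [Fintype.card_subtype_compl, hJ]
    simp
  have hE' : π ∘ₗ E ∘ₗ K.subtype ∈ HI R N K K := hi_comp hE π K.subtype
  have key := hEl big hbig K {k // k ≠ j} (fun k => X k.1) hcard (fun k => hX k.1)
    (fun k hk c hc y hy => hP3 k.1 hk c hc y hy) d' (π ∘ₗ E ∘ₗ K.subtype) hE' ⟨x, hx⟩ (by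
      rw [LinearMap.comp_apply, LinearMap.comp_apply, Submodule.subtype_apply, hEx]
      exact hπK ⟨x, hx⟩)
  have hne : ∀ k, k ≠ j → ¬ big (X k) (d.pr k x) := fun k hk => key ⟨k, hk⟩
  intro k
  by_cases hk : k = j
  · subst hk
    intro hb
    -- x_j is the image of the other components
    have h1 := congrArg z (d.sum x)
    rw [hsplit, map_add, map_sum, hzx] at h1
    have h2 : d.pr k x = zj.symm (∑ l : {l // l ≠ k}, -(z (d.inc l.1 (d.pr l.1 x)))) := by
      rw [Finset.sum_neg_distrib, ← hzj' (d.pr k x)]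
      congr 1
      exact eq_neg_of_add_eq_zero_left h1
    rw [h2] at hb
    have h3 := hbig.map (ModuleCat.of R V) (X k) (zj.symm : V →ₗ[R] X k) _ hb
    obtain ⟨l, -, h4⟩ := big_sum hbig (ModuleCat.of R V) Finset.univ
      (fun l : {l // l ≠ k} => -(z (d.inc l.1 (d.pr l.1 x)))) h3
    exact hne l.1 l.2 (hbig.map (X l.1) (ModuleCat.of R V) (-(z ∘ₗ d.inc l.1)) (d.pr l.1 x) h4)
  · exact hne k hk

end H18

end SER
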