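import Pool.Agent.Helper69_SER.Stmts

/-!
# KEY (MP_bd34ba_al, squad SER)
-/

set_option autoImplicit false

namespace SER

namespace H18

section

variable {R : Type} [Ring R] {X : Type} [AddCommGroup X] [Module R X]
  {Y : Type} [AddCommGroup Y] [Module R Y]

theorem sq_of_inj (m : X →ₗ[R] Y) (hm : Function.Injective m) : Sq R X Y :=
  ⟨LinearMap.range m, ((LinearEquiv.ofInjective m hm).symm : LinearMap.range m →ₗ[R] X),
    (LinearEquiv.ofInjective m hm).symm.surjective⟩

theorem sq_of_surj (e : Y →ₗ[R] X) (he : Function.Surjective e) : Sq R X Y :=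
  ⟨⊤, e ∘ₗ (⊤ : Submodule R Y).subtype, fun x => by
    obtain ⟨y, hy⟩ := he x
    exact ⟨⟨y, trivial⟩, hy⟩⟩

theorem chain_quot (hX : Chain R X) (A : Submodule R X) : Chain R (X ⧸ A) := by
  intro B C
  rcases hX (B.comap A.mkQ) (C.comap A.mkQ) with h | h
  · left
    intro b hb
    obtain ⟨x, rfl⟩ := A.mkQ_surjective b
    exact h hb
  · right
    intro b hb
    obtain ⟨x, rfl⟩ := A.mkQ_surjective b
    exact h hb

/-- quotients by comparable submodules -/
theorem sq_quot {A B : Submodule R X} (h : A ≤ B) : Sq R (X ⧸ B) (X ⧸ A) := by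
  refine sq_of_surj (A.mapQ B LinearMap.id h) ?_
  intro b
  obtain ⟨x, rfl⟩ := B.mkQ_surjective b
  exact ⟨A.mkQ x, rfl⟩

end

theorem key (hE : ElimNStmt) : KeyStmt := by
  intro R _ N _ _ hN ι U hU L X _ _ hX β n S hS hq
  by_contra hSX
  let big : ∀ Y : ModuleCat.{0} R, Y → Prop := fun Y y =>
    ∃ g : Y →ₗ[R] X, S (ModuleCat.of R (X ⧸ Submodule.span R {g y}))
  -- the quotient by zero is not in the class
  have h0 : ∀ x : X, x = 0 → ¬ S (ModuleCat.of R (X ⧸ Submodule.span R {x})) := by
    rintro x rfl h
    apply hSX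
    refine hS.sq (ModuleCat.of R X) _ h (sq_of_inj (Submodule.span R {(0 : X)}).mkQ ?_)
    rw [← LinearMap.ker_eq_bot, Submodule.ker_mkQ, Submodule.span_zero_singleton]
  have hbig : Big R big := by
    refine ⟨?_, ?_, ?_⟩
    · rintro Y ⟨g, hg⟩
      exact h0 _ (map_zero g) hg
    · rintro Y x y ⟨g, hg⟩
      rcases hX.2 (Submodule.span R {g x}) (Submodule.span R {g y}) with h | h
      · right
        refine ⟨g, hS.sq _ _ hg (sq_quot ?_)⟩
        rw [Submodule.span_singleton_le_iff_mem, map_add]
        exact Submodule.add_mem _ (h (Submodule.mem_span_singleton_self _))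
          (Submodule.mem_span_singleton_self _)
      · left
        refine ⟨g, hS.sq _ _ hg (sq_quot ?_)⟩
        rw [Submodule.span_singleton_le_iff_mem, map_add]
        exact Submodule.add_mem _ (Submodule.mem_span_singleton_self _)
          (h (Submodule.mem_span_singleton_self _))
    · rintro Y Z g x ⟨f, hf⟩
      exact ⟨f ∘ₗ g, hf⟩
  have hP3 : P3 R N big ι U := by
    rintro k - c hc y ⟨g, hg⟩
    refine ⟨g, ?_⟩
    have hch := (hU k).2
    -- the kernel of g is below R y
    have hker : LinearMap.ker g ≤ Submodule.span R {y} := by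
      rcases hch (LinearMap.ker g) (Submodule.span R {y}) with h | h
      · exact h
      · exfalso
        refine h0 (g y) ?_ hg
        exact h (Submodule.mem_span_singleton_self y)
    -- Y / R y is in the class
    have hle : Submodule.span R {y} ≤ (Submodule.span R {g y}).comap g := by
      rw [Submodule.span_singleton_le_iff_mem]
      exact Submodule.mem_span_singleton_self _
    have h1 : S (ModuleCat.of R ((U k) ⧸ Submodule.span R {y})) := by
      refine hS.sq _ _ hg (sq_of_inj ((Submodule.span R {y}).mapQ (Submodule.span R {g y}) g hle) ?_)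
      rw [← LinearMap.ker_eq_bot, Submodule.ker_mapQ, eq_bot_iff]
      rintro _ ⟨w, hw, rfl⟩
      rw [Submodule.mem_bot, Submodule.mkQ_apply, Submodule.Quotient.mk_eq_zero]
      have hw' : g w ∈ Submodule.span R {g y} := hw
      obtain ⟨r, hr⟩ := Submodule.mem_span_singleton.mp hw'
      have h2 : w - r • y ∈ LinearMap.ker g := by
        rw [LinearMap.mem_ker, map_sub, map_smul, hr, sub_self]
      have h3 := hker h2
      have h4 : w = (w - r • y) + r • y := by abel
      rw [h4]
      exact Submodule.add_mem _ h3 (Submodule.smul_mem _ _ (Submodule.mem_span_singleton_self _))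
    -- Y / R (c y) is in the class
    have hle2 : Submodule.span R {y} ≤ (Submodule.span R {c y}).comap c := by
      rw [Submodule.span_singleton_le_iff_mem]
      exact Submodule.mem_span_singleton_self _
    have h2 : S (ModuleCat.of R ((U k) ⧸ Submodule.span R {c y})) := by
      refine hS.sq _ _ h1
        (sq_of_surj ((Submodule.span R {y}).mapQ (Submodule.span R {c y}) c hle2) ?_)
      intro b
      obtain ⟨w, rfl⟩ := (Submodule.span R {c y}).mkQ_surjective b
      obtain ⟨v, rfl⟩ := hc w
      exact ⟨(Submodule.span R {y}).mkQ v, rfl⟩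
    -- the map from Y / R (c y) to X / R g (c y)
    have hle3 : Submodule.span R {c y} ≤ (Submodule.span R {g (c y)}).comap g := by
      rw [Submodule.span_singleton_le_iff_mem]
      exact Submodule.mem_span_singleton_self _
    set γ := (Submodule.span R {c y}).mapQ (Submodule.span R {g (c y)}) g hle3 with hγ
    refine hS.ext (ModuleCat.of R (X ⧸ Submodule.span R {g (c y)})) (LinearMap.range γ)
      (chain_quot hX.2 _) ?_ ?_
    · exact hS.sq _ _ h2 (sq_of_surj γ.rangeRestrict γ.surjective_rangeRestrict)
    · have hle4 : Submodule.span R {g y} ≤ LinearMap.ker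
          ((LinearMap.range γ).mkQ ∘ₗ (Submodule.span R {g (c y)}).mkQ) := by
        rw [Submodule.span_singleton_le_iff_mem, LinearMap.mem_ker, LinearMap.comp_apply,
          Submodule.mkQ_apply, Submodule.Quotient.mk_eq_zero]
        exact ⟨(Submodule.span R {c y}).mkQ y, rfl⟩
      refine hS.sq _ _ hg (sq_of_surj ((Submodule.span R {g y}).liftQ _ hle4) ?_)
      intro b
      obtain ⟨b', rfl⟩ := (LinearMap.range γ).mkQ_surjective b
      obtain ⟨x, rfl⟩ := (Submodule.span R {g (c y)}).mkQ_surjective b'
      exact ⟨(Submodule.span R {g y}).mkQ x, rfl⟩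
  exact hE R N hN ι U hU L big hbig hP3 (ModuleCat.of R X) β n ⟨LinearMap.id, hq⟩

end H18

end SER
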